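import Pool.Agent.Zk48.CE.Geom

/-!
# A circle and an ellipse with a common focus: at most ten stationary points of the distance

Answer to Q2 (positive). Idea of the proof. Write `r` for the distance of a point of the ellipse to
the common focus, `ρ` for its distance to the axis of the circle, `Φ = r² / 2`. Away from the
apsides the stationary points are the points of the ellipse where the slope `Y = dρ / dΦ` of the
curve `(Φ, ρ)` is `1 / R` or `-1 / R`. Between two such points `Y` or `dY` vanishes. The slope
vanishes at most four times (a trigonometric polynomial of degree two), and the curve has at most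
one inflection on one of the two halves of the ellipse and at most three on the other one. The
count of inflections uses that, for a fixed circle and a fixed direction of the major axis, the
inflections at true anomaly `ν` belong to one explicit eccentricity `e(ν)`, and that all critical
points of this function are maxima on one quarter and minima on the next one.
-/

set_option autoImplicit false

namespace Pool.Agent.Results.MP_4e5648_mp.CircleAndEllipse

open Real

/-- The point with angle `s` of the circle with centre `F` and radius `R` in the plane through `F`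
spanned by the orthonormal vectors `u`, `w`. -/
noncomputable def circlePoint (F u w : EuclideanSpace ℝ (Fin 3)) (R s : ℝ) :
    EuclideanSpace ℝ (Fin 3) :=
  F + (R * cos s) • u + (R * sin s) • w

/-- The point with eccentric anomaly `t` of the ellipse with semi-major axis `a`, eccentricity `e`,
one focus at `F` and centre `F + (a e) u`, in the plane through `F` spanned by the orthonormal
vectors `u`, `w`. -/
noncomputable def ellipsePoint (F u w : EuclideanSpace ℝ (Fin 3)) (a e t : ℝ) :
    EuclideanSpace ℝ (Fin 3) :=
  F + (a * (e + cos t)) • u + (a * √(1 - e ^ 2) * sin t) • w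

/-- The stationary points `(p, q)` of the squared distance on circle times ellipse: both partial
derivatives of the squared distance vanish. -/
def stationary (F u₁ w₁ u₂ w₂ : EuclideanSpace ℝ (Fin 3)) (R a e : ℝ) :
    Set (EuclideanSpace ℝ (Fin 3) × EuclideanSpace ℝ (Fin 3)) :=
  {x | ∃ s t : ℝ, x = (circlePoint F u₁ w₁ R s, ellipsePoint F u₂ w₂ a e t) ∧
    deriv (fun s' => ‖circlePoint F u₁ w₁ R s' - ellipsePoint F u₂ w₂ a e t‖ ^ 2) s = 0 ∧
    deriv (fun t' => ‖circlePoint F u₁ w₁ R s - ellipsePoint F u₂ w₂ a e t'‖ ^ 2) t = 0}

/-- **Q2.** For every circle and every ellipse of eccentricity `0 < e < 1` in three-space such that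
the centre of the circle is a focus of the ellipse, the squared distance has at most ten stationary
points. -/
theorem result (F u₁ w₁ u₂ w₂ : EuclideanSpace ℝ (Fin 3)) (R a e : ℝ)
    (hR : 0 < R) (ha : 0 < a) (he0 : 0 < e) (he1 : e < 1)
    (hu₁ : ‖u₁‖ = 1) (hw₁ : ‖w₁‖ = 1) (huw₁ : inner ℝ u₁ w₁ = 0)
    (hu₂ : ‖u₂‖ = 1) (hw₂ : ‖w₂‖ = 1) (huw₂ : inner ℝ u₂ w₂ = 0) :
    (stationary F u₁ w₁ u₂ w₂ R a e).Finite ∧
      (stationary F u₁ w₁ u₂ w₂ R a e).ncard ≤ 10 := by
  have hP : ∀ s : ℝ, HasDerivAt (fun s' => circlePoint F u₁ w₁ R s')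
      ((-(R * sin s)) • u₁ + (R * cos s) • w₁) s := by
    intro s
    have h1 := (((Real.hasDerivAt_cos s).const_mul R).smul_const u₁).const_add F
    have h2 := ((Real.hasDerivAt_sin s).const_mul R).smul_const w₁
    have h3 := h1.add h2
    refine h3.congr_deriv ?_
    simp
  have hQ : ∀ t : ℝ, HasDerivAt (fun t' => ellipsePoint F u₂ w₂ a e t')
      ((-(a * sin t)) • u₂ + (a * √(1 - e ^ 2) * cos t) • w₂) t := by
    intro t
    have h1 := ((((Real.hasDerivAt_cos t).const_add e).const_mul a).smul_const u₂).const_add F
    have h2 := ((Real.hasDerivAt_sin t).const_mul (a * √(1 - e ^ 2))).smul_const w₂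
    have h3 := h1.add h2
    refine h3.congr_deriv ?_
    simp
  have hle : (stationary F u₁ w₁ u₂ w₂ R a e).encard ≤ (10 : ℕ) := by
    refine le_trans (Set.encard_le_encard ?_)
      (Pool.Agent.Zk48.CE.main (F := F) hR ha he0 he1 hu₁ hw₁ huw₁ hu₂ hw₂ huw₂)
    rintro x ⟨s, t, hx, h1, h2⟩
    have d1 := ((hP s).sub_const (ellipsePoint F u₂ w₂ a e t)).norm_sq.deriv
    have d2 := ((hQ t).const_sub (circlePoint F u₁ w₁ R s)).norm_sq.deriv
    rw [h1] at d1
    rw [h2] at d2
    refine ⟨s, t, hx, ?_, ?_⟩
    · have := (mul_eq_zero.mp d1.symm).resolve_left two_ne_zero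
      exact this
    · have := (mul_eq_zero.mp d2.symm).resolve_left two_ne_zero
      rw [inner_neg_right, neg_eq_zero] at this
      exact this
  have hfin : (stationary F u₁ w₁ u₂ w₂ R a e).Finite := Set.finite_of_encard_le_coe hle
  refine ⟨hfin, ?_⟩
  rw [← hfin.cast_ncard_eq] at hle
  exact_mod_cast hle

end Pool.Agent.Results.MP_4e5648_mp.CircleAndEllipse
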